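import Pool.Agent.K7.H12.UI.Conc

/-!
# Project UI, job SIZE: sizes of the graph and of the symmetric differences
-/

set_option autoImplicit false
set_option linter.unusedSectionVars false
set_option linter.unusedSimpArgs false

namespace Pool.Agent.K7.H41.UI

open Pool.Agent.K7.H12.UI

variable {P : Par}

theorem mem_sd (u v c : Vt P) (hc : c ∈ sd (gph P) u v) :
    (Mis P (lab u) (lab c) ∧ ¬ Mis P (lab v) (lab c)) ∨
      (¬ Mis P (lab u) (lab c) ∧ Mis P (lab v) (lab c)) := by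
  obtain ⟨h1, h2, h3⟩ := hc
  have h4 : ¬ ((u ≠ c ∧ ¬ Mis P (lab u) (lab c)) ↔ (v ≠ c ∧ ¬ Mis P (lab v) (lab c))) := h3
  have h5 : u ≠ c := fun h => h1 h.symm
  have h6 : v ≠ c := fun h => h2 h.symm
  tauto

/-- the size of a set of vertices from the sizes of its parts -/
theorem ncard_le (S : Set (Vt P)) (q1 q2 q3 : ℕ)
    (h1 : {q : Bk P | bk q ∈ S}.ncard ≤ q1)
    (h2 : {q : Fin P.b × Fin P.r | tt q.1 q.2 ∈ S}.ncard ≤ q2)
    (h3 : {j : Fin P.m | ww j ∈ S}.ncard ≤ q3) :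
    S.ncard ≤ q1 + q2 + q3 := by
  classical
  have hS : S ⊆ ((fun q : Bk P => bk q) '' {q | bk q ∈ S}) ∪
    (((fun q : Fin P.b × Fin P.r => tt q.1 q.2) '' {q | tt q.1 q.2 ∈ S}) ∪
    ((fun j : Fin P.m => ww j) '' {j | ww j ∈ S})) := by
    rintro y hy
    rcases y with q | ⟨c, l⟩ | j
    · exact Or.inl ⟨q, hy, rfl⟩
    · exact Or.inr (Or.inl ⟨(c, l), hy, rfl⟩)
    · exact Or.inr (Or.inr ⟨j, hy, rfl⟩)
  refine (Set.ncard_le_ncard hS (Set.toFinite _)).trans ((Set.ncard_union_le _ _).trans ?_)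
  have e1 := (Set.ncard_image_le (f := fun q : Bk P => bk q)
    (s := {q | bk q ∈ S}) (Set.toFinite _)).trans h1
  have e2 := (Set.ncard_image_le (f := fun q : Fin P.b × Fin P.r => (tt q.1 q.2 : Vt P))
    (s := {q | tt q.1 q.2 ∈ S}) (Set.toFinite _)).trans h2
  have e3 := (Set.ncard_image_le (f := fun j : Fin P.m => (ww j : Vt P))
    (s := {j | ww j ∈ S}) (Set.toFinite _)).trans h3
  have e4 := Set.ncard_union_le
    ((fun q : Fin P.b × Fin P.r => (tt q.1 q.2 : Vt P)) '' {q | tt q.1 q.2 ∈ S})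
    ((fun j : Fin P.m => (ww j : Vt P)) '' {j | ww j ∈ S})
  omega

/-- bulk vertices -/
theorem ncard_bk (T : Set (Bk P)) (T' : Set (Fin (P.r + 1) × Fin P.m))
    (h : ∀ p ∈ T, p.1 ∈ T') : T.ncard ≤ T'.ncard := by
  rw [← Set.ncard_image_of_injective T
    (Subtype.val_injective (p := fun p : Fin (P.r + 1) × Fin P.m =>
      (p.1 : ℕ) = 0 → P.m ≤ 2 * (p.2 : ℕ)))]
  refine Set.ncard_le_ncard ?_ (Set.toFinite _)
  rintro _ ⟨p, hp, rfl⟩
  exact h p hp

theorem ncard_le_prod {a b : ℕ} (T : Set (Fin a × Fin b)) : T.ncard ≤ a * b := by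
  refine (Set.ncard_le_ncard (Set.subset_univ T)).trans_eq ?_
  rw [Set.ncard_univ]
  simp

theorem ncard_le_fin {a : ℕ} (T : Set (Fin a)) : T.ncard ≤ a := by
  refine (Set.ncard_le_ncard (Set.subset_univ T)).trans_eq ?_
  rw [Set.ncard_univ]
  simp

theorem ncard_empty_le {α : Type} (T : Set α) (h : ∀ x, x ∉ T) (q : ℕ) : T.ncard ≤ q := by
  have : T = ∅ := Set.eq_empty_iff_forall_notMem.2 h
  rw [this]
  simp

/-- columns in a set of at most `q` elements -/
theorem ncard_col {a b : ℕ} (T : Set (Fin a × Fin b)) (J : Set (Fin b)) (q : ℕ)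
    (hJ : J.ncard ≤ q) (h : ∀ x ∈ T, x.2 ∈ J) : T.ncard ≤ a * q := by
  have h1 : T ⊆ (Set.univ : Set (Fin a)) ×ˢ J := fun x hx => ⟨Set.mem_univ _, h x hx⟩
  refine (Set.ncard_le_ncard h1).trans ?_
  rw [Set.ncard_prod, Set.ncard_univ]
  simp only [Nat.card_eq_fintype_card, Fintype.card_fin]
  exact Nat.mul_le_mul_left _ hJ

/-- rows in a set of at most `q` elements -/
theorem ncard_row {a b : ℕ} (T : Set (Fin a × Fin b)) (J : Set (Fin a)) (q : ℕ)
    (hJ : J.ncard ≤ q) (h : ∀ x ∈ T, x.1 ∈ J) : T.ncard ≤ q * b := by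
  have h1 : T ⊆ J ×ˢ (Set.univ : Set (Fin b)) := fun x hx => ⟨h x hx, Set.mem_univ _⟩
  refine (Set.ncard_le_ncard h1).trans ?_
  rw [Set.ncard_prod, Set.ncard_univ]
  simp only [Nat.card_eq_fintype_card, Fintype.card_fin]
  exact Nat.mul_le_mul_right _ hJ

theorem ncard_one {a : ℕ} (u : ℕ) : {x : Fin a | (x : ℕ) = u}.ncard ≤ 1 := by
  rw [Set.ncard_le_one]
  rintro x hx y hy
  exact Fin.ext ((show (x : ℕ) = u from hx).trans (show (y : ℕ) = u from hy).symm)

theorem ncard_pair {a : ℕ} (u v : ℕ) : {x : Fin a | (x : ℕ) = u ∨ (x : ℕ) = v}.ncard ≤ 2 := by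
  classical
  have h1 : {x : Fin a | (x : ℕ) = u ∨ (x : ℕ) = v} = {x : Fin a | (x : ℕ) = u} ∪
      {x : Fin a | (x : ℕ) = v} := rfl
  rw [h1]
  exact (Set.ncard_union_le _ _).trans
    (by have := ncard_one (a := a) u; have := ncard_one (a := a) v; omega)

/-- the columns of a block -/
theorem ncard_blk {m : ℕ} (blk : ℕ → ℕ) (c : ℕ) :
    {j : Fin m | blk j = c}.ncard = {j : ℕ | j < m ∧ blk j = c}.ncard := by
  rw [← Set.ncard_image_of_injective _ (Fin.val_injective (n := m))]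
  congr 1
  ext j
  constructor
  · rintro ⟨i, hi, rfl⟩
    exact ⟨i.2, hi⟩
  · rintro ⟨h1, h2⟩
    exact ⟨⟨j, h1⟩, h2, rfl⟩

theorem ncard_two_blk {m : ℕ} (blk : ℕ → ℕ) (q : ℕ)
    (hq : ∀ c, {j : ℕ | j < m ∧ blk j = c}.ncard ≤ q) (c c' : ℕ) :
    {j : Fin m | blk j = c ∨ blk j = c'}.ncard ≤ 2 * q := by
  have h1 : {j : Fin m | blk j = c ∨ blk j = c'} = {j : Fin m | blk j = c} ∪
      {j : Fin m | blk j = c'} := rfl
  rw [h1]
  refine (Set.ncard_union_le _ _).trans ?_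
  rw [ncard_blk, ncard_blk]
  have := hq c
  have := hq c'
  omega

/-- the column hubs that see exactly one of two column hubs -/
theorem ncard_ww {m : ℕ} (j j' : ℕ) :
    {x : Fin m | (m < j + x + 2 ∧ ¬ m < j' + x + 2) ∨ (¬ m < j + x + 2 ∧ m < j' + x + 2)}.ncard ≤
      (j - j') + (j' - j) := by
  classical
  rw [← Set.ncard_image_of_injective _ (Fin.val_injective (n := m))]
  refine (Set.ncard_le_ncard (t := ((Finset.Ico (m - 1 - j') (m - 1 - j) ∪
    Finset.Ico (m - 1 - j) (m - 1 - j') : Finset ℕ) : Set ℕ)) ?_ (Finset.finite_toSet _)).trans ?_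
  · rintro _ ⟨x, hx, rfl⟩
    have hx' : (m < j + x + 2 ∧ ¬ m < j' + x + 2) ∨ (¬ m < j + x + 2 ∧ m < j' + x + 2) := hx
    simp only [Finset.coe_union, Finset.coe_Ico, Set.mem_union, Set.mem_Ico]
    omega
  · rw [Set.ncard_coe_finset]
    refine (Finset.card_union_le _ _).trans ?_
    rw [Nat.card_Ico, Nat.card_Ico]
    omega

section main

variable {B : ℕ}

theorem r_pos (ok : Ok P 1 B) : 1 ≤ P.r := ok.hr

theorem b_pos (ok : Ok P 1 B) : 1 ≤ P.b := by
  have h2 := ok.hb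
  have h3 : 1 ≤ P.r := ok.hr
  have h4 : 1 * 1 ≤ 1 * P.r ^ 2 := Nat.mul_le_mul le_rfl (Nat.one_le_pow _ _ h3)
  omega

theorem rb_le (ok : Ok P 1 B) : P.b * P.r ≤ B := by
  refine le_trans (le_of_eq ?_) ok.hB
  ring

theorem b_le (ok : Ok P 1 B) : P.b ≤ B :=
  (Nat.le_mul_of_pos_right _ (r_pos ok)).trans (rb_le ok)

theorem B_pos (ok : Ok P 1 B) : 1 ≤ B := (b_pos ok).trans (b_le ok)

theorem bB_le (ok : Ok P 1 B) : P.b * B ≤ P.m := by
  classical
  have h1 : (Finset.range P.m).card =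
      ∑ c ∈ Finset.range P.b, ((Finset.range P.m).filter fun j => P.blk j = c).card :=
    Finset.card_eq_sum_card_fiberwise fun j hj => by
      simp only [Finset.coe_range, Set.mem_Iio] at hj ⊢
      exact ok.blk_lt j hj
  rw [Finset.card_range] at h1
  have h2 : ∀ c ∈ Finset.range P.b,
      B ≤ ((Finset.range P.m).filter fun j => P.blk j = c).card := by
    intro c hc
    have h3 := ok.blk_card c (Finset.mem_range.1 hc)
    have h4 : {j : ℕ | j < P.m ∧ P.blk j = c} =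
        (((Finset.range P.m).filter fun j => P.blk j = c : Finset ℕ) : Set ℕ) := by
      ext j
      simp
    rw [h4, Set.ncard_coe_finset] at h3
    omega
  rw [h1]
  have h5 := Finset.card_nsmul_le_sum _ _ _ h2
  rwa [Finset.card_range, smul_eq_mul] at h5

theorem m_pos (ok : Ok P 1 B) : 0 < P.m := by
  have h1 := bB_le ok
  have h2 := b_pos ok
  have h4 : 1 * 1 ≤ P.b * B := Nat.mul_le_mul h2 (B_pos ok)
  omega

theorem b_le_m (ok : Ok P 1 B) : P.b ≤ P.m :=
  le_trans (Nat.le_mul_of_pos_right _ (B_pos ok)) (bB_le ok)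

theorem blk_le (ok : Ok P 1 B) (c : ℕ) :
    {j : ℕ | j < P.m ∧ P.blk j = c}.ncard ≤ 2 * B := by
  rcases lt_or_ge c P.b with hc | hc
  · rw [ok.blk_card c hc]
    have := b_le ok
    omega
  · refine ncard_empty_le _ ?_ _
    rintro j ⟨h1, h2⟩
    have := ok.blk_lt j h1
    omega

theorem card_le (ok : Ok P 1 B) : Nat.card (Vt P) ≤ 16 * (P.r * P.m) := by
  have h1 : (Set.univ : Set (Vt P)).ncard ≤ (P.r + 1) * P.m + P.b * P.r + P.m := by
    refine ncard_le _ _ _ _ ?_ ?_ ?_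
    · exact (ncard_bk _ Set.univ fun _ _ => Set.mem_univ _).trans (ncard_le_prod _)
    · exact ncard_le_prod _
    · exact ncard_le_fin _
  rw [Set.ncard_univ] at h1
  have h2 : P.m ≤ P.r * P.m := Nat.le_mul_of_pos_left _ (r_pos ok)
  have h3 : P.b * P.r ≤ P.r * P.m := by
    rw [Nat.mul_comm]
    exact Nat.mul_le_mul_left _ (b_le_m ok)
  have h4 : (P.r + 1) * P.m = P.r * P.m + P.m := by ring
  omega

theorem le_card : P.r * P.m ≤ Nat.card (Vt P) := by
  let f : Fin P.r × Fin P.m → Bk P := fun q => ⟨(q.1.succ, q.2), fun h => by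
    simp at h⟩
  have h1 : Nat.card (Fin P.r × Fin P.m) ≤ Nat.card (Vt P) :=
    Nat.card_le_card_of_injective (fun q : Fin P.r × Fin P.m => bk (f q)) (by
      rintro ⟨i, j⟩ ⟨i', j'⟩ hq
      have hq' : f (i, j) = f (i', j') := Sum.inl_injective hq
      have hq2 := congrArg Subtype.val hq'
      have hq3 : (i.succ, j) = (i'.succ, j') := hq2
      simpa using hq3)
  refine le_trans (le_of_eq ?_) h1
  simp only [Nat.card_eq_fintype_card, Fintype.card_prod, Fintype.card_fin]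

theorem sd_bk (ok : Ok P 1 B) (p q : Bk P) :
    (sd (gph P) (bk p) (bk q)).ncard ≤ 16 * P.r := by
  have h1 : (sd (gph P) (bk p) (bk q)).ncard ≤ 0 + 2 * P.r + 2 := by
    refine ncard_le _ _ _ _ ?_ ?_ ?_
    · refine ncard_empty_le _ ?_ _
      rintro y hy
      have hm := mem_sd (bk p) (bk q) (bk y) hy
      simp only [bk, lab, Mis] at hm
      tauto
    · refine ncard_row _ {c : Fin P.b | (c : ℕ) = P.blk p.1.2 ∨ (c : ℕ) = P.blk q.1.2} 2
        (ncard_pair _ _) ?_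
      rintro y hy
      have hm := mem_sd (bk p) (bk q) (tt y.1 y.2) hy
      simp only [bk, tt, lab, Mis] at hm
      show (y.1 : ℕ) = P.blk p.1.2 ∨ (y.1 : ℕ) = P.blk q.1.2
      rcases hm with ⟨hm, -⟩ | ⟨-, hm⟩
      · exact Or.inl hm.1.symm
      · exact Or.inr hm.1.symm
    · refine (Set.ncard_le_ncard ?_).trans (ncard_pair (p.1.2 : ℕ) (q.1.2 : ℕ))
      rintro y hy
      have hm := mem_sd (bk p) (bk q) (ww y) hy
      simp only [bk, ww, lab, Mis] at hm
      show (y : ℕ) = (p.1.2 : ℕ) ∨ (y : ℕ) = (q.1.2 : ℕ)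
      rcases hm with ⟨hm, -⟩ | ⟨-, hm⟩
      · exact Or.inl hm.symm
      · exact Or.inr hm.symm
  have := r_pos ok
  omega

theorem sd_tt (ok : Ok P 1 B) (c c' : Fin P.b) (l l' : Fin P.r) :
    (sd (gph P) (tt c l) (tt c' l')).ncard ≤ 16 * (P.r * B) := by
  have h1 : (sd (gph P) (tt c l) (tt c' l')).ncard ≤ (P.r + 1) * (2 * (2 * B)) + 0 + 0 := by
    refine ncard_le _ _ _ _ ?_ ?_ ?_
    · refine (ncard_bk _ {q : Fin (P.r + 1) × Fin P.m | P.blk q.2 = c ∨ P.blk q.2 = c'} ?_).trans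
        (ncard_col _ {j : Fin P.m | P.blk j = c ∨ P.blk j = c'} (2 * (2 * B))
        (ncard_two_blk _ _ (blk_le ok) _ _) fun x hx => hx)
      rintro q hq
      have hm := mem_sd (tt c l) (tt c' l') (bk q) hq
      simp only [bk, tt, lab, Mis] at hm
      show P.blk q.1.2 = (c : ℕ) ∨ P.blk q.1.2 = (c' : ℕ)
      rcases hm with ⟨hm, -⟩ | ⟨-, hm⟩
      · exact Or.inl hm.1
      · exact Or.inr hm.1
    · refine ncard_empty_le _ ?_ _
      rintro q hq
      have hm := mem_sd (tt c l) (tt c' l') (tt q.1 q.2) hq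
      simp only [tt, lab, Mis] at hm
      tauto
    · refine ncard_empty_le _ ?_ _
      rintro q hq
      have hm := mem_sd (tt c l) (tt c' l') (ww q) hq
      simp only [tt, ww, lab, Mis] at hm
      tauto
  have h2 : (P.r + 1) * (2 * (2 * B)) = 4 * (P.r * B) + 4 * B := by ring
  have h3 : B ≤ P.r * B := Nat.le_mul_of_pos_left _ (r_pos ok)
  omega

theorem sd_ww (ok : Ok P 1 B) (j j' : Fin P.m) :
    (sd (gph P) (ww j) (ww j')).ncard ≤
      16 * (P.r + (((j : ℕ) - (j' : ℕ)) + ((j' : ℕ) - (j : ℕ)))) := by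
  have h1 : (sd (gph P) (ww j) (ww j')).ncard ≤
      (P.r + 1) * 2 + 0 + (((j : ℕ) - (j' : ℕ)) + ((j' : ℕ) - (j : ℕ))) := by
    refine ncard_le _ _ _ _ ?_ ?_ ?_
    · refine (ncard_bk _
        {q : Fin (P.r + 1) × Fin P.m | (q.2 : ℕ) = (j : ℕ) ∨ (q.2 : ℕ) = (j' : ℕ)} ?_).trans
        (ncard_col _ {y : Fin P.m | (y : ℕ) = (j : ℕ) ∨ (y : ℕ) = (j' : ℕ)} 2
        (ncard_pair _ _) fun x hx => hx)
      rintro q hq
      have hm := mem_sd (ww j) (ww j') (bk q) hq
      simp only [bk, ww, lab, Mis] at hm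
      show (q.1.2 : ℕ) = (j : ℕ) ∨ (q.1.2 : ℕ) = (j' : ℕ)
      rcases hm with ⟨hm, -⟩ | ⟨-, hm⟩
      · exact Or.inl hm
      · exact Or.inr hm
    · refine ncard_empty_le _ ?_ _
      rintro q hq
      have hm := mem_sd (ww j) (ww j') (tt q.1 q.2) hq
      simp only [tt, ww, lab, Mis] at hm
      tauto
    · refine (Set.ncard_le_ncard ?_).trans (ncard_ww (m := P.m) (j : ℕ) (j' : ℕ))
      rintro q hq
      have hm := mem_sd (ww j) (ww j') (ww q) hq
      simp only [ww, lab, Mis] at hm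
      exact hm
  have := r_pos ok
  omega

/-- the missing vertices -/
theorem mis_le (ok : Ok P 1 B) (v : Vt P) :
    {u : Vt P | Mis P (lab v) (lab u)}.ncard ≤ 7 * (P.m + P.r * B) := by
  have hr := r_pos ok
  have hB := B_pos ok
  have e1 : P.r ≤ P.r * B := Nat.le_mul_of_pos_right _ hB
  have e2 : B ≤ P.r * B := Nat.le_mul_of_pos_left _ hr
  have key : ∀ q1 q2 q3 : ℕ, q1 + q2 + q3 ≤ 7 * (P.m + P.r * B) →
      {u : Vt P | Mis P (lab v) (lab u)}.ncard ≤ q1 + q2 + q3 →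
      {u : Vt P | Mis P (lab v) (lab u)}.ncard ≤ 7 * (P.m + P.r * B) :=
    fun q1 q2 q3 h1 h2 => h2.trans h1
  rcases v with p | ⟨c, l⟩ | j
  · refine key 0 (1 * P.r) 1 (by omega) ?_
    refine ncard_le _ _ _ _ ?_ ?_ ?_
    · refine ncard_empty_le _ ?_ _
      rintro q hq
      have hm : Mis P (lab (bk p)) (lab (bk q)) := hq
      exact hm
    · refine ncard_row _ {c : Fin P.b | (c : ℕ) = P.blk p.1.2} 1 (ncard_one _) ?_
      rintro q hq
      have hm : Mis P (lab (bk p)) (lab (tt q.1 q.2)) := hq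
      simp only [bk, tt, ww, lab, Mis] at hm
      exact hm.1.symm
    · refine (Set.ncard_le_ncard ?_).trans (ncard_one (p.1.2 : ℕ))
      rintro q hq
      have hm : Mis P (lab (bk p)) (lab (ww q)) := hq
      simp only [bk, tt, ww, lab, Mis] at hm
      exact hm.symm
  · have e6 : (P.r + 1) * (2 * B) = 2 * (P.r * B) + 2 * B := by ring
    refine key ((P.r + 1) * (2 * B)) 0 P.m (by omega) ?_
    refine ncard_le _ _ _ _ ?_ ?_ ?_
    · refine (ncard_bk _ {q : Fin (P.r + 1) × Fin P.m | P.blk q.2 = c} ?_).trans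
        (ncard_col _ {y : Fin P.m | P.blk y = c} (2 * B)
        (by rw [ncard_blk]; exact blk_le ok _) fun x hx => hx)
      rintro q hq
      have hm : Mis P (lab (tt c l)) (lab (bk q)) := hq
      simp only [bk, tt, ww, lab, Mis] at hm
      exact hm.1
    · refine ncard_empty_le _ ?_ _
      rintro q hq
      have hm : Mis P (lab (tt c l)) (lab (tt q.1 q.2)) := hq
      exact hm
    · exact ncard_le_fin _
  · have e6 : P.b * P.r ≤ P.r * B := (rb_le ok).trans e2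
    refine key ((P.r + 1) * 1) (P.b * P.r) P.m (by omega) ?_
    refine ncard_le _ _ _ _ ?_ ?_ ?_
    · refine (ncard_bk _ {q : Fin (P.r + 1) × Fin P.m | (q.2 : ℕ) = (j : ℕ)} ?_).trans
        (ncard_col _ {y : Fin P.m | (y : ℕ) = (j : ℕ)} 1 (ncard_one _) fun x hx => hx)
      rintro q hq
      have hm : Mis P (lab (ww j)) (lab (bk q)) := hq
      simp only [bk, tt, ww, lab, Mis] at hm
      exact hm
    · exact ncard_le_prod _
    · exact ncard_le_fin _

/-- the missing bulk vertices -/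
theorem misb_le (ok : Ok P 1 B) (v : Vt P) :
    {u : Vt P | (∃ p, u = bk p) ∧ Mis P (lab v) (lab u)}.ncard ≤ 7 * (P.r * B) := by
  have hr := r_pos ok
  have hB := B_pos ok
  have e1 : P.r ≤ P.r * B := Nat.le_mul_of_pos_right _ hB
  have e2 : B ≤ P.r * B := Nat.le_mul_of_pos_left _ hr
  have key : ∀ q1 : ℕ, q1 ≤ 7 * (P.r * B) →
      {q : Bk P | Mis P (lab v) (lab (bk q))}.ncard ≤ q1 →
      {u : Vt P | (∃ p, u = bk p) ∧ Mis P (lab v) (lab u)}.ncard ≤ 7 * (P.r * B) := by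
    intro q1 h1 h2
    have h3 : {u : Vt P | (∃ p, u = bk p) ∧ Mis P (lab v) (lab u)}.ncard ≤ q1 + 0 + 0 := by
      refine ncard_le _ _ _ _ ?_ ?_ ?_
      · exact (Set.ncard_le_ncard (fun q hq => hq.2)).trans h2
      · refine ncard_empty_le _ ?_ _
        rintro q ⟨⟨p, hq⟩, -⟩
        have h4 := congrArg lab hq
        simp only [tt, bk, lab] at h4
        exact absurd h4 (by simp)
      · refine ncard_empty_le _ ?_ _
        rintro q ⟨⟨p, hq⟩, -⟩
        have h4 := congrArg lab hq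
        simp only [ww, bk, lab] at h4
        exact absurd h4 (by simp)
    omega
  rcases v with p | ⟨c, l⟩ | j
  · refine key 0 (Nat.zero_le _) ?_
    refine ncard_empty_le _ ?_ _
    rintro q hq
    have hm : Mis P (lab (bk p)) (lab (bk q)) := hq
    exact hm
  · have e6 : (P.r + 1) * (2 * B) = 2 * (P.r * B) + 2 * B := by ring
    refine key ((P.r + 1) * (2 * B)) (by omega) ?_
    refine (ncard_bk _ {q : Fin (P.r + 1) × Fin P.m | P.blk q.2 = c} ?_).trans
        (ncard_col _ {y : Fin P.m | P.blk y = c} (2 * B)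
        (by rw [ncard_blk]; exact blk_le ok _) fun x hx => hx)
    rintro q hq
    have hm : Mis P (lab (tt c l)) (lab (bk q)) := hq
    simp only [bk, tt, ww, lab, Mis] at hm
    exact hm.1
  · refine key ((P.r + 1) * 1) (by omega) ?_
    refine (ncard_bk _ {q : Fin (P.r + 1) × Fin P.m | (q.2 : ℕ) = (j : ℕ)} ?_).trans
        (ncard_col _ {y : Fin P.m | (y : ℕ) = (j : ℕ)} 1 (ncard_one _) fun x hx => hx)
    rintro q hq
    have hm : Mis P (lab (ww j)) (lab (bk q)) := hq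
    simp only [bk, tt, ww, lab, Mis] at hm
    exact hm

theorem non_le (ok : Ok P 1 B) (v : Vt P) :
    {u : Vt P | u ∉ nb (gph P) v}.ncard ≤ 8 * (P.m + P.r * B) := by
  classical
  have h1 : {u : Vt P | u ∉ nb (gph P) v} ⊆ {v} ∪ {u : Vt P | Mis P (lab v) (lab u)} := by
    intro u hu
    by_contra h2
    refine hu ⟨fun h3 => h2 (Or.inl h3.symm), fun h3 => h2 (Or.inr h3)⟩
  have h2 := (Set.ncard_le_ncard h1 (Set.toFinite _)).trans (Set.ncard_union_le _ _)
  rw [Set.ncard_singleton] at h2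
  have h3 := mis_le ok v
  have h4 := m_pos ok
  omega

end main

/-- JOB SIZE -/
theorem size : StSize := by
  refine ⟨16, by norm_num, 1, ?_⟩
  intro P B ok
  have hm := m_pos ok
  have hc := le_card (P := P)
  have hr1 : 1 ≤ P.r := ok.hr
  have hcp : 0 < Nat.card (Vt P) := lt_of_lt_of_le (Nat.mul_pos hr1 hm) hc
  refine ⟨hm, hcp, bB_le ok, blk_le ok, ?_, by exact_mod_cast hc, ?_, ?_, ?_, ?_, ?_, ?_⟩
  · exact_mod_cast card_le ok
  · intro p q
    exact_mod_cast sd_bk ok p q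
  · intro c c' l l'
    exact_mod_cast sd_tt ok c c' l l'
  · intro j j'
    have h1 := sd_ww ok j j'
    have h2 : ((((j : ℕ) - (j' : ℕ)) + ((j' : ℕ) - (j : ℕ)) : ℕ) : ℝ) =
        |((j : ℕ) : ℝ) - ((j' : ℕ) : ℝ)| := by
      rcases le_total (j : ℕ) (j' : ℕ) with h3 | h3
      · rw [Nat.sub_eq_zero_of_le h3, zero_add, Nat.cast_sub h3, abs_sub_comm, abs_of_nonneg]
        have : ((j : ℕ) : ℝ) ≤ ((j' : ℕ) : ℝ) := by exact_mod_cast h3
        linarith
      · rw [Nat.sub_eq_zero_of_le h3, add_zero, Nat.cast_sub h3, abs_of_nonneg]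
        have : ((j' : ℕ) : ℝ) ≤ ((j : ℕ) : ℝ) := by exact_mod_cast h3
        linarith
    rw [← h2]
    exact_mod_cast h1
  · intro v
    have h1 : {u : Vt P | u ∉ nb (gph P) v}.ncard ≤ 16 * (P.m + P.r * B) :=
      (non_le ok v).trans (by omega)
    exact_mod_cast h1
  · intro v v'
    have h2 : sd (gph P) v v' ⊆ {u : Vt P | u ∉ nb (gph P) v} ∪ {u : Vt P | u ∉ nb (gph P) v'} := by
      rintro c ⟨-, -, h3⟩
      by_contra h4
      have h5 : ¬ (¬ (gph P).Adj v c ∨ ¬ (gph P).Adj v' c) := h4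
      exact h3 ⟨fun _ => by tauto, fun _ => by tauto⟩
    have h3 := (Set.ncard_le_ncard h2 (Set.toFinite _)).trans (Set.ncard_union_le _ _)
    have h4 := non_le ok v
    have h5 := non_le ok v'
    have h6 : (sd (gph P) v v').ncard ≤ 16 * (P.m + P.r * B) := by omega
    exact_mod_cast h6
  · intro v
    have h1 := misb_le ok v
    have h2 : {u : Vt P | (∃ p, u = bk p) ∧ u ∉ nb (gph P) v} ⊆
        {v} ∪ {u : Vt P | (∃ p, u = bk p) ∧ Mis P (lab v) (lab u)} := by
      rintro u ⟨hu2, hu3⟩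
      by_contra hu4
      exact hu3 ⟨fun h3 => hu4 (Or.inl h3.symm), fun h3 => hu4 (Or.inr ⟨hu2, h3⟩)⟩
    have h3 := (Set.ncard_le_ncard h2 (Set.toFinite _)).trans (Set.ncard_union_le _ _)
    rw [Set.ncard_singleton] at h3
    have h4 : 0 < P.r * B := Nat.mul_pos hr1 (B_pos ok)
    have h5 : {u : Vt P | (∃ p, u = bk p) ∧ u ∉ nb (gph P) v}.ncard ≤ 16 * (P.r * B) := by omega
    exact_mod_cast h5

end Pool.Agent.K7.H41.UI
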